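import Mathlib

/-!
# Groups of order twice an odd number have a character of order two
-/

set_option autoImplicit false

open Finset Function

namespace Pool.Agent.L7h11.PC

theorem exists_char (G : Type) [Group G] [Fintype G] {h : ℕ} (hG : Fintype.card G = 2 * h)
    (hh : Odd h) : ∃ ψ : G →* ℤˣ, ∃ t : G, ψ t = -1 := by
  classical
  haveI : Fact (Nat.Prime 2) := ⟨Nat.prime_two⟩
  obtain ⟨t, ht⟩ := exists_prime_orderOf_dvd_card (G := G) 2 (by rw [hG]; exact dvd_mul_right _ _)
  refine ⟨Equiv.Perm.sign.comp (MulAction.toPermHom G G), t, ?_⟩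
  have hinj : Injective (MulAction.toPermHom G G) := by
    intro a b hab
    have := congrArg (fun σ : Equiv.Perm G => σ 1) hab
    simpa using this
  set σ : Equiv.Perm G := MulAction.toPermHom G G t with hσ
  have ho : orderOf σ = 2 := by rw [hσ, orderOf_injective _ hinj, ht]
  obtain ⟨r, hr⟩ := Equiv.Perm.cycleType_prime_order (σ := σ) (by rw [ho]; exact Nat.prime_two)
  rw [ho] at hr
  have hsupp : σ.support = univ := by
    ext x
    simp only [Equiv.Perm.mem_support, Finset.mem_univ, iff_true]
    intro hx
    have h1 : t * x = x := hx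
    have h2 : t = 1 := by simpa using h1
    rw [h2, orderOf_one] at ht
    omega
  have hc : σ.cycleType.sum = Fintype.card G := by
    rw [Equiv.Perm.sum_cycleType, hsupp, Finset.card_univ]
  rw [hr, Multiset.sum_replicate, smul_eq_mul, hG] at hc
  have hrh : r + 1 = h := by omega
  change Equiv.Perm.sign σ = -1
  rw [Equiv.Perm.sign_of_cycleType, hr, Multiset.sum_replicate, Multiset.card_replicate, smul_eq_mul,
    hrh]
  have : Odd (h * 2 + h) := by
    obtain ⟨q, hq⟩ := hh
    exact ⟨3 * q + 1, by rw [hq]; ring⟩
  exact this.neg_one_pow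

theorem card_fiber (G : Type) [Group G] [Fintype G] {h : ℕ} (hG : Fintype.card G = 2 * h)
    (ψ : G →* ℤˣ) {t : G} (ht : ψ t = -1) : (univ.filter (fun g : G => ψ g = 1)).card = h := by
  classical
  have h1 : (univ.filter (fun g : G => ψ g = 1)).card = (univ.filter (fun g : G => ¬ ψ g = 1)).card := by
    refine Finset.card_bij (fun g _ => t * g) ?_ ?_ ?_
    · intro g hg
      simp only [Finset.mem_filter, Finset.mem_univ, true_and] at hg ⊢
      rw [map_mul, ht, hg]
      decide
    · intro a _ b _ hab
      exact mul_left_cancel hab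
    · intro b hb
      simp only [Finset.mem_filter, Finset.mem_univ, true_and] at hb
      refine ⟨t⁻¹ * b, ?_, by simp⟩
      simp only [Finset.mem_filter, Finset.mem_univ, true_and]
      have hb' : ψ b = -1 := (Int.units_eq_one_or (ψ b)).resolve_left hb
      rw [map_mul, map_inv, ht, hb']
      decide
  have h2 := Finset.card_filter_add_card_filter_not (s := (univ : Finset G)) (fun g : G => ψ g = 1)
  rw [Finset.card_univ, hG] at h2
  omega

end Pool.Agent.L7h11.PC
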