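import Pool.Agent.L7h11.PC.Mann2
import Pool.Agent.L7h11.PC.Grp

/-!
# The distance from cubes based on groups
-/

set_option autoImplicit false

open Finset Function

namespace Pool.Agent.L7h11.PC

open Pool.Agent.H430R2.PermCubes

variable {m n : ℕ}

theorem mem_viol (A : Fin m → Finset (Fin n)) (S : Finset (Fin n))
    (C : (Fin m → Fin n) → Fin n) (x : Fin m → Fin n) :
    x ∈ viol A S C ↔ (C x ∈ S ↔ Odd (univ.filter (fun j => x j ∉ A j)).card) := by
  classical
  have h1 : us A x = (-1) ^ (univ.filter (fun j => x j ∉ A j)).card := by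
    unfold us ep
    have : ∀ j, (if x j ∈ A j then (1 : ℤ) else -1) = if x j ∉ A j then -1 else 1 := by
      intro j
      by_cases h : x j ∈ A j <;> simp [h]
    simp only [this]
    rw [Finset.prod_ite]
    simp
  simp only [viol, Finset.mem_filter, Finset.mem_univ, true_and]
  rw [h1]
  unfold ep
  rcases Nat.even_or_odd (univ.filter (fun j => x j ∉ A j)).card with h | h
  · rw [h.neg_one_pow]
    by_cases hx : C x ∈ S
    · simp [hx, Nat.not_odd_iff_even.2 h]
    · simp only [hx, if_false, Nat.not_odd_iff_even.2 h]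
      norm_num
  · rw [h.neg_one_pow]
    by_cases hx : C x ∈ S
    · simp only [hx, if_true, h]
      norm_num
    · simp [hx, h]

theorem card_viol_ge {k h : ℕ} {C : Fin k → (Fin m → Fin n) → Fin n}
    (hV : IsVariationalSet m n k C) (hm : 2 ≤ m) (hmk : m ≤ k) (hnh : n = 2 * h) (hh : Odd h)
    (i : Fin k) (A : Fin m → Finset (Fin n)) (S : Finset (Fin n)) (hA : ∀ j, (A j).card = h)
    (hS : S.card = h) : 2 ^ (m - 2) * (n + 2) ≤ (viol A S (C i)).card := by
  have h1 := foreign_count hV hm hmk hnh hh i A S hA hS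
  rw [card_viol hV hnh hh i A S hA hS]
  obtain ⟨r, rfl⟩ : ∃ r, m = r + 2 := ⟨m - 2, by omega⟩
  have h2 : r + 2 - 2 = r := by omega
  rw [h2, pow_add]
  calc 2 ^ r * (n + 2) ≤ 2 ^ r * (4 * (foreign A S (C i)).card) := Nat.mul_le_mul_left _ h1
    _ = _ := by ring

/-- every member is far from every cube based on a group -/
theorem far {k h : ℕ} {C : Fin k → (Fin m → Fin n) → Fin n}
    (hV : IsVariationalSet m n k C) (hm : 2 ≤ m) (hmk : m ≤ k) (hnh : n = 2 * h) (hh : Odd h)
    (i : Fin k) (G : Type) [Group G] (θ : Fin m → Fin n ≃ G) (e : G ≃ Fin n) :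
    2 ^ (m - 2) * (n + 2) ≤
      (univ.filter (fun x : Fin m → Fin n => C i x ≠ e (List.ofFn (fun j => θ j (x j))).prod)).card := by
  classical
  letI : Fintype G := Fintype.ofEquiv _ e.symm
  have hG : Fintype.card G = 2 * h := by rw [Fintype.card_congr e, Fintype.card_fin, hnh]
  obtain ⟨ψ, t, ht⟩ := exists_char G hG hh
  have hcard := card_fiber G hG ψ ht
  let A : Fin m → Finset (Fin n) := fun j => univ.filter (fun s => ψ (θ j s) = 1)
  let S : Finset (Fin n) := univ.filter (fun s => ψ (e.symm s) = 1)
  have hA : ∀ j, (A j).card = h := by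
    intro j
    rw [← hcard]
    refine Finset.card_bij (fun s _ => θ j s) ?_ ?_ ?_
    · intro s hs
      simpa [A] using hs
    · intro a _ b _ hab
      exact (θ j).injective hab
    · intro g hg
      exact ⟨(θ j).symm g, by simpa [A] using hg, by simp⟩
  have hS : S.card = h := by
    rw [← hcard]
    refine Finset.card_bij (fun s _ => e.symm s) ?_ ?_ ?_
    · intro s hs
      simpa [S] using hs
    · intro a _ b _ hab
      exact e.symm.injective hab
    · intro g hg
      exact ⟨e g, by simpa [S] using hg, by simp⟩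
  refine (card_viol_ge hV hm hmk hnh hh i A S hA hS).trans (Finset.card_le_card ?_)
  intro x hx
  simp only [Finset.mem_filter, Finset.mem_univ, true_and]
  intro hcon
  simp only [viol, Finset.mem_filter, Finset.mem_univ, true_and] at hx
  apply hx
  have h1 : ∀ g : G, ((ψ g : ℤˣ) : ℤ) = if ψ g = 1 then 1 else -1 := by
    intro g
    rcases Int.units_eq_one_or (ψ g) with h | h
    · simp [h]
    · rw [h, if_neg (by decide)]
      rfl
  have h2 : us A x = ((ψ (List.ofFn (fun j => θ j (x j))).prod : ℤˣ) : ℤ) := by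
    rw [map_list_prod, List.map_ofFn, List.prod_ofFn]
    rw [Units.coe_prod]
    unfold us
    apply Finset.prod_congr rfl
    intro j _
    simp only [Function.comp]
    rw [h1]
    simp [ep, A]
  rw [h2, hcon, h1]
  simp [ep, S]

end Pool.Agent.L7h11.PC
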