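import Pool.Agent.H430R2.PermCubes.Defs

/-!
# Mann's theorem for permutation cubes of every dimension: the counting argument
-/

set_option autoImplicit false

open Finset Function

namespace Pool.Agent.L7h11.PC

open Pool.Agent.H430R2.PermCubes

variable {m n : ℕ}

/-- a function with zero sums over the lines in one direction has sum zero -/
theorem sum_zero_of_line (hn : 0 < n) (F : (Fin m → Fin n) → ℤ) (j : Fin m)
    (hF : ∀ x, ∑ t, F (update x j t) = 0) : ∑ x, F x = 0 := by
  let σ : ((Fin m → Fin n) × Fin n) → ((Fin m → Fin n) × Fin n) :=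
    fun p => (update p.1 j p.2, p.1 j)
  have hσ : Involutive σ := by
    rintro ⟨x, t⟩
    simp [σ]
  have h1 : ∑ p : (Fin m → Fin n) × Fin n, F (σ p).1 = ∑ p : (Fin m → Fin n) × Fin n, F p.1 :=
    Equiv.sum_comp hσ.toPerm (fun p => F p.1)
  rw [Fintype.sum_prod_type, Fintype.sum_prod_type] at h1
  simp only [σ, hF, Finset.sum_const, Finset.card_univ, Fintype.card_fin, nsmul_eq_mul,
    mul_zero] at h1
  rw [← Finset.mul_sum] at h1
  have : (n : ℤ) ≠ 0 := by exact_mod_cast hn.ne'
  rcases mul_eq_zero.1 h1.symm with h | h
  · exact absurd h this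
  · exact h

/-- the sign of a coordinate -/
def ep (A : Finset (Fin n)) (t : Fin n) : ℤ := if t ∈ A then 1 else -1

/-- the indicator -/
def ind (A : Finset (Fin n)) (t : Fin n) : ℤ := if t ∈ A then 1 else 0

theorem ep_eq (A : Finset (Fin n)) (t : Fin n) : ep A t = 2 * ind A t - 1 := by
  unfold ep ind
  split_ifs <;> norm_num

/-- **the box lemma** -/
theorem box (hn : 0 < n) (A : Fin m → Finset (Fin n)) (g : (Fin m → Fin n) → ℤ)
    (hg : ∀ (j : Fin m) x, ∑ t, g (update x j t) = 0) (J : Finset (Fin m)) :
    ∑ x : Fin m → Fin n, (∏ j, (if j ∈ J then ep (A j) (x j) else ind (A j) (x j))) * g x =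
      2 ^ J.card * ∑ x : Fin m → Fin n, (∏ j, ind (A j) (x j)) * g x := by
  classical
  induction J using Finset.induction_on with
  | empty => simp
  | insert a J ha ih =>
    rw [Finset.card_insert_of_notMem ha, pow_succ, mul_comm ((2 : ℤ) ^ J.card) 2, mul_assoc, ← ih]
    let Q : (Fin m → Fin n) → ℤ := fun x =>
      ∏ j ∈ univ.erase a, (if j ∈ J then ep (A j) (x j) else ind (A j) (x j))
    have e1 : ∀ x : Fin m → Fin n, (∏ j, (if j ∈ insert a J then ep (A j) (x j)
        else ind (A j) (x j))) = ep (A a) (x a) * Q x := by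
      intro x
      rw [← Finset.mul_prod_erase _ _ (Finset.mem_univ a)]
      simp only [Finset.mem_insert_self, if_true]
      congr 1
      apply Finset.prod_congr rfl
      intro j hj
      have : j ≠ a := (Finset.mem_erase.1 hj).1
      simp [this]
    have e2 : ∀ x : Fin m → Fin n, (∏ j, (if j ∈ J then ep (A j) (x j)
        else ind (A j) (x j))) = ind (A a) (x a) * Q x := by
      intro x
      rw [← Finset.mul_prod_erase _ _ (Finset.mem_univ a)]
      simp [ha, Q]
    have hQ : ∀ x t, Q (update x a t) = Q x := by
      intro x t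
      apply Finset.prod_congr rfl
      intro j hj
      have : j ≠ a := (Finset.mem_erase.1 hj).1
      simp [update_of_ne this]
    have hz : ∑ x, Q x * g x = 0 := by
      apply sum_zero_of_line hn _ a
      intro x
      simp only [hQ]
      rw [← Finset.mul_sum, hg, mul_zero]
    calc ∑ x : Fin m → Fin n, (∏ j, (if j ∈ insert a J then ep (A j) (x j)
          else ind (A j) (x j))) * g x
        = ∑ x : Fin m → Fin n, (2 * (ind (A a) (x a) * Q x * g x) - Q x * g x) := by
          apply Finset.sum_congr rfl
          intro x _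
          rw [e1, ep_eq]
          ring
      _ = 2 * ∑ x : Fin m → Fin n, (ind (A a) (x a) * Q x * g x) := by
          rw [Finset.sum_sub_distrib, hz, sub_zero, ← Finset.mul_sum]
      _ = _ := by
          congr 1
          apply Finset.sum_congr rfl
          intro x _
          rw [e2]

end Pool.Agent.L7h11.PC
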