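import Pool.Agent.L7h11.PC.Mann

/-!
# Mann's theorem for permutation cubes of every dimension
-/

set_option autoImplicit false

open Finset Function

namespace Pool.Agent.L7h11.PC

open Pool.Agent.H430R2.PermCubes

variable {m n : ℕ}

theorem sum_ep {A : Finset (Fin n)} (hA : 2 * A.card = n) : ∑ t, ep A t = 0 := by
  have h1 : ∀ t, ep A t = 2 * ind A t - 1 := ep_eq A
  simp only [h1, Finset.sum_sub_distrib, ← Finset.mul_sum]
  have h2 : ∑ t, ind A t = (A.card : ℤ) := by
    unfold ind
    rw [Finset.sum_ite_mem, Finset.univ_inter]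
    simp
  rw [h2]
  simp only [Finset.sum_const, Finset.card_univ, Fintype.card_fin, nsmul_eq_mul, mul_one]
  have : (2 * A.card : ℤ) = n := by exact_mod_cast hA
  linarith

/-- an injective choice of `m` cubes containing two given ones -/
theorem exists_choice {k : ℕ} (hm : 2 ≤ m) (hmk : m ≤ k) {i i' : Fin k} (hii : i ≠ i') :
    ∃ e : Fin m → Fin k, Injective e ∧ e ⟨0, by omega⟩ = i ∧ e ⟨1, by omega⟩ = i' := by
  let e0 : Fin m → Fin k := Fin.castLE hmk
  have he0 : Injective e0 := Fin.castLE_injective hmk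
  let z : Fin m := ⟨0, by omega⟩
  let o : Fin m := ⟨1, by omega⟩
  have hzo : z ≠ o := by simp [z, o]
  let s1 : Equiv.Perm (Fin k) := Equiv.swap (e0 z) i
  let y := s1 (e0 o)
  have hy : y ≠ i := by
    intro h
    have h2 : s1 (e0 z) = i := Equiv.swap_apply_left _ _
    exact hzo (he0 (s1.injective (h2.trans h.symm)))
  let s2 : Equiv.Perm (Fin k) := Equiv.swap y i'
  refine ⟨fun j => s2 (s1 (e0 j)), ?_, ?_, ?_⟩
  · intro a b hab
    exact he0 (s1.injective (s2.injective hab))
  · change s2 (s1 (e0 z)) = i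
    rw [show s1 (e0 z) = i from Equiv.swap_apply_left _ _]
    exact Equiv.swap_apply_of_ne_of_ne hy.symm hii
  · change s2 (s1 (e0 o)) = i'
    exact Equiv.swap_apply_left _ _

/-- the product of the signs of the coordinates -/
def us (A : Fin m → Finset (Fin n)) (x : Fin m → Fin n) : ℤ := ∏ j, ep (A j) (x j)

theorem ep_sq (A : Finset (Fin n)) (t : Fin n) : ep A t = 1 ∨ ep A t = -1 := by
  unfold ep
  split_ifs <;> simp

theorem us_sq (A : Fin m → Finset (Fin n)) (x : Fin m → Fin n) : us A x = 1 ∨ us A x = -1 := by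
  classical
  unfold us
  refine Finset.prod_induction _ (fun z : ℤ => z = 1 ∨ z = -1) ?_ (Or.inl rfl)
    (fun j _ => ep_sq _ _)
  rintro a b (rfl | rfl) (rfl | rfl) <;> simp

/-- the cells where the symbol class differs from the parity of the position -/
def viol (A : Fin m → Finset (Fin n)) (S : Finset (Fin n)) (C : (Fin m → Fin n) → Fin n) :
    Finset (Fin m → Fin n) := univ.filter (fun x => us A x ≠ ep S (C x))

/-- the cells of the box with a foreign symbol -/
def foreign (A : Fin m → Finset (Fin n)) (S : Finset (Fin n)) (C : (Fin m → Fin n) → Fin n) :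
    Finset (Fin m → Fin n) := univ.filter (fun x => (∀ j, x j ∈ A j) ∧ C x ∉ S)

theorem box' (hn : 0 < n) (A : Fin m → Finset (Fin n)) (g : (Fin m → Fin n) → ℤ)
    (hg : ∀ (j : Fin m) x, ∑ t, g (update x j t) = 0) :
    ∑ x, us A x * g x = 2 ^ m * ∑ x ∈ univ.filter (fun x : Fin m → Fin n => ∀ j, x j ∈ A j), g x := by
  classical
  have h := box hn A g hg univ
  simp only [Finset.mem_univ, if_true, Finset.card_univ, Fintype.card_fin] at h
  unfold us
  rw [h]
  congr 1
  rw [Finset.sum_filter]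
  apply Finset.sum_congr rfl
  intro x _
  unfold ind
  by_cases hx : ∀ j, x j ∈ A j
  · simp [hx]
  · push Not at hx
    obtain ⟨j, hj⟩ := hx
    rw [if_neg (fun h' => hj (h' j)), Finset.prod_eq_zero (Finset.mem_univ j) (by simp [hj]),
      zero_mul]

theorem card_box (A : Fin m → Finset (Fin n)) {h : ℕ} (hA : ∀ j, (A j).card = h) :
    (univ.filter (fun x : Fin m → Fin n => ∀ j, x j ∈ A j)).card = h ^ m := by
  classical
  have : univ.filter (fun x : Fin m → Fin n => ∀ j, x j ∈ A j) = Fintype.piFinset A := by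
    ext x
    simp [Fintype.mem_piFinset]
  rw [this, Fintype.card_piFinset]
  simp [hA]

/-- line sums of a function of the symbol -/
theorem line_symbol {C : (Fin m → Fin n) → Fin n} (hC : IsPermutationCube m n C) (φ : Fin n → ℤ)
    (hφ : ∑ s, φ s = 0) (j : Fin m) (x : Fin m → Fin n) : ∑ t, φ (C (update x j t)) = 0 := by
  rw [← hφ]
  exact (hC j x).sum_comp φ

/-- orthogonality -/
theorem orth {k : ℕ} {C : Fin k → (Fin m → Fin n) → Fin n} (hV : IsVariationalSet m n k C)
    (hm : 2 ≤ m) (hmk : m ≤ k) (hn : 0 < n) {i i' : Fin k} (hii : i ≠ i') (φ ψ : Fin n → ℤ)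
    (hφ : ∑ s, φ s = 0) : ∑ x, φ (C i x) * ψ (C i' x) = 0 := by
  obtain ⟨e, he, h0, h1⟩ := exists_choice hm hmk hii
  have hb := hV.2 e he
  have h2 := hb.sum_comp (fun y : Fin m → Fin n => φ (y ⟨0, by omega⟩) * ψ (y ⟨1, by omega⟩))
  simp only [h0, h1] at h2
  rw [h2]
  apply sum_zero_of_line hn _ ⟨0, by omega⟩
  intro x
  have h3 : ∀ t, update x (⟨0, by omega⟩ : Fin m) t (⟨1, by omega⟩ : Fin m) = x ⟨1, by omega⟩ := by
    intro t
    rw [update_of_ne]
    simp
  simp only [h3, update_self]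
  rw [← Finset.sum_mul, hφ, zero_mul]

theorem sum_us (hm : 0 < m) (hn : 0 < n) (A : Fin m → Finset (Fin n)) (hA : ∀ j, 2 * (A j).card = n) :
    ∑ x, us A x = 0 := by
  classical
  apply sum_zero_of_line hn _ ⟨0, hm⟩
  intro x
  have : ∀ t, us A (update x ⟨0, hm⟩ t) = ep (A ⟨0, hm⟩) t *
      ∏ j ∈ univ.erase (⟨0, hm⟩ : Fin m), ep (A j) (x j) := by
    intro t
    unfold us
    rw [← Finset.mul_prod_erase _ _ (Finset.mem_univ (⟨0, hm⟩ : Fin m)), update_self]
    congr 1
    apply Finset.prod_congr rfl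
    intro j hj
    rw [update_of_ne (Finset.mem_erase.1 hj).1]
  simp only [this]
  rw [← Finset.sum_mul, sum_ep (hA _), zero_mul]

/-- the difference `u - f` -/
theorem diff_eq (A : Fin m → Finset (Fin n)) (S : Finset (Fin n)) (C : (Fin m → Fin n) → Fin n)
    (x : Fin m → Fin n) :
    us A x - ep S (C x) = if x ∈ viol A S C then 2 * us A x else 0 := by
  unfold viol
  simp only [Finset.mem_filter, Finset.mem_univ, true_and]
  rcases us_sq A x with h | h <;> rcases ep_sq S (C x) with h' | h' <;> rw [h, h'] <;> norm_num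

/-- **the violating cells with a given symbol of another cube** -/
theorem viol_count {k h : ℕ} {C : Fin k → (Fin m → Fin n) → Fin n} (hV : IsVariationalSet m n k C)
    (hm : 2 ≤ m) (hmk : m ≤ k) (hnh : n = 2 * h) (hh : Odd h) {i i' : Fin k} (hii : i ≠ i')
    (A : Fin m → Finset (Fin n)) (S : Finset (Fin n)) (hA : ∀ j, (A j).card = h)
    (hS : S.card = h) (s : Fin n) :
    2 ^ (m - 2) ≤ ((viol A S (C i)).filter (fun x => C i' x = s)).card := by
  classical
  have hh0 : 0 < h := hh.pos
  have hn : 0 < n := by omega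
  have hA' : ∀ j, 2 * (A j).card = n := fun j => by rw [hA, hnh]
  have hS' : 2 * S.card = n := by rw [hS, hnh]
  let ψ : Fin n → ℤ := fun t => n * (if t = s then 1 else 0) - 1
  have hψ : ∑ t, ψ t = 0 := by
    simp [ψ, Finset.sum_sub_distrib, ← Finset.mul_sum]
  have hf : ∑ t, ep S t = 0 := sum_ep hS'
  -- the sum of `u g`
  have e1 : ∑ x, us A x * ψ (C i' x) = 2 ^ m *
      ∑ x ∈ univ.filter (fun x : Fin m → Fin n => ∀ j, x j ∈ A j), ψ (C i' x) :=
    box' hn A _ (fun j x => line_symbol (hV.1 i') ψ hψ j x)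
  have e2 : ∑ x, ep S (C i x) * ψ (C i' x) = 0 := orth hV hm hmk hn hii _ _ hf
  have e3 : ∑ x, us A x = 0 := sum_us (by omega) hn A hA'
  have e4 : ∑ x, ep S (C i x) = 0 :=
    sum_zero_of_line hn _ ⟨0, by omega⟩ (fun x => line_symbol (hV.1 i) _ hf _ x)
  set V := viol A S (C i) with hVdef
  have e5 : ∑ x ∈ V, us A x = 0 := by
    have : ∑ x, (us A x - ep S (C i x)) = 2 * ∑ x ∈ V, us A x := by
      simp only [diff_eq, ← hVdef]
      rw [Finset.sum_ite_mem, Finset.univ_inter, Finset.mul_sum]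
    rw [Finset.sum_sub_distrib, e3, e4] at this
    linarith
  have e6 : ∑ x, us A x * ψ (C i' x) = 2 * n * ∑ x ∈ V.filter (fun x => C i' x = s), us A x := by
    have h1 : ∑ x, us A x * ψ (C i' x) = ∑ x, (us A x - ep S (C i x)) * ψ (C i' x) := by
      simp only [sub_mul, Finset.sum_sub_distrib, e2, sub_zero]
    have h2 : ∀ x, (us A x - ep S (C i x)) * ψ (C i' x) =
        if x ∈ V then 2 * us A x * ψ (C i' x) else 0 := by
      intro x
      rw [diff_eq, ← hVdef]
      split_ifs <;> simp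
    rw [h1]
    simp only [h2]
    rw [Finset.sum_ite_mem, Finset.univ_inter]
    have h3 : ∀ x, 2 * us A x * ψ (C i' x) =
        2 * n * (if C i' x = s then us A x else 0) - 2 * us A x := by
      intro x
      simp only [ψ]
      split_ifs <;> ring
    simp only [h3, Finset.sum_sub_distrib, ← Finset.mul_sum, e5, mul_zero, sub_zero]
    rw [Finset.sum_filter]
  -- the number of the cells of the box with the symbol `s`
  set B := univ.filter (fun x : Fin m → Fin n => ∀ j, x j ∈ A j) with hB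
  have hBc : B.card = h ^ m := card_box A hA
  set N := (B.filter (fun x => C i' x = s)).card with hN
  have e7 : ∑ x ∈ B, ψ (C i' x) = n * N - (h : ℤ) ^ m := by
    simp only [ψ, Finset.sum_sub_distrib, ← Finset.mul_sum, Finset.sum_const, nsmul_eq_mul, mul_one,
      hBc]
    rw [Finset.sum_boole]
    push_cast
    rfl
  set T := ∑ x ∈ V.filter (fun x => C i' x = s), us A x with hT
  have e8 : (2 : ℤ) ^ m * (n * N - (h : ℤ) ^ m) = 2 * n * T := by
    rw [← e7, ← e1, e6]
  obtain ⟨r, rfl⟩ : ∃ r, m = r + 2 := ⟨m - 2, by omega⟩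
  have e9 : (2 : ℤ) ^ r * (2 * N - (h : ℤ) ^ (r + 1)) = T := by
    have hn' : (n : ℤ) = 2 * h := by exact_mod_cast hnh
    rw [hn'] at e8
    have h4 : (4 * h : ℤ) * ((2 : ℤ) ^ r * (2 * N - (h : ℤ) ^ (r + 1))) = 4 * h * T := by
      have : (2 : ℤ) ^ (r + 2) * (2 * h * N - (h : ℤ) ^ (r + 2)) = 2 * (2 * h) * T := e8
      rw [pow_add, pow_add (h : ℤ) r 2] at this
      rw [pow_add]
      linear_combination this
    have h5 : (4 * h : ℤ) ≠ 0 := by positivity
    exact mul_left_cancel₀ h5 h4
  have e10 : (2 : ℤ) ^ r ≤ |T| := by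
    rw [← e9, abs_mul, abs_of_nonneg (by positivity : (0 : ℤ) ≤ 2 ^ r)]
    have hodd : Odd (2 * (N : ℤ) - (h : ℤ) ^ (r + 1)) := by
      have h1 : Odd ((h : ℤ) ^ (r + 1)) := by
        have : Odd (h : ℤ) := by exact_mod_cast hh
        exact this.pow
      exact (even_two_mul _).sub_odd h1
    have h2 : 1 ≤ |2 * (N : ℤ) - (h : ℤ) ^ (r + 1)| := by
      have : 2 * (N : ℤ) - (h : ℤ) ^ (r + 1) ≠ 0 := by
        intro h0
        rw [h0] at hodd
        exact absurd hodd (by decide)
      exact Int.one_le_abs this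
    have h3 : (0 : ℤ) < 2 ^ r := by positivity
    nlinarith
  have e11 : |T| ≤ ((V.filter (fun x => C i' x = s)).card : ℤ) := by
    refine (Finset.abs_sum_le_sum_abs _ _).trans ?_
    have : ∀ x ∈ V.filter (fun x => C i' x = s), |us A x| = 1 := by
      intro x _
      rcases us_sq A x with h | h <;> rw [h] <;> simp
    rw [Finset.sum_congr rfl this]
    simp
  have e12 : (2 : ℤ) ^ r ≤ ((V.filter (fun x => C i' x = s)).card : ℤ) := e10.trans e11
  have : r + 2 - 2 = r := by omega
  rw [this]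
  exact_mod_cast e12

/-- the number of the violating cells -/
theorem card_viol {k h : ℕ} {C : Fin k → (Fin m → Fin n) → Fin n} (hV : IsVariationalSet m n k C)
    (hnh : n = 2 * h) (hh : Odd h) (i : Fin k)
    (A : Fin m → Finset (Fin n)) (S : Finset (Fin n)) (hA : ∀ j, (A j).card = h)
    (hS : S.card = h) : (viol A S (C i)).card = 2 ^ m * (foreign A S (C i)).card := by
  classical
  have hh0 : 0 < h := hh.pos
  have hn : 0 < n := by omega
  have hS' : 2 * S.card = n := by rw [hS, hnh]
  have e1 := box' hn A (fun x => ep S (C i x)) (fun j x => line_symbol (hV.1 i) _ (sum_ep hS') j x)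
  set B := univ.filter (fun x : Fin m → Fin n => ∀ j, x j ∈ A j) with hB
  have hBc : B.card = h ^ m := card_box A hA
  have e2 : ∑ x ∈ B, ep S (C i x) = (h : ℤ) ^ m - 2 * (foreign A S (C i)).card := by
    have h1 : ∀ x, ep S (C i x) = 1 - 2 * (if C i x ∉ S then (1 : ℤ) else 0) := by
      intro x
      unfold ep
      by_cases hx : C i x ∈ S <;> simp [hx]
    simp only [h1, Finset.sum_sub_distrib, ← Finset.mul_sum, Finset.sum_const, nsmul_eq_mul,
      mul_one, hBc]
    rw [Finset.sum_boole]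
    have : B.filter (fun x => C i x ∉ S) = foreign A S (C i) := by
      ext x
      simp [hB, foreign]
    rw [this]
    push_cast
    ring
  have e3 : ∑ x, us A x * ep S (C i x) = (n : ℤ) ^ m - 2 * (viol A S (C i)).card := by
    have h1 : ∀ x, us A x * ep S (C i x) = 1 - 2 * (if x ∈ viol A S (C i) then (1 : ℤ) else 0) := by
      intro x
      simp only [viol, Finset.mem_filter, Finset.mem_univ, true_and]
      rcases us_sq A x with h | h <;> rcases ep_sq S (C i x) with h' | h' <;> rw [h, h'] <;>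
        norm_num
    simp only [h1, Finset.sum_sub_distrib, ← Finset.mul_sum, Finset.sum_const, nsmul_eq_mul,
      mul_one]
    rw [Finset.sum_boole, Finset.filter_mem_eq_inter, Finset.univ_inter]
    simp
  rw [e3, e2] at e1
  have hn' : (n : ℤ) = 2 * h := by exact_mod_cast hnh
  rw [hn', mul_pow] at e1
  have : ((viol A S (C i)).card : ℤ) = 2 ^ m * (foreign A S (C i)).card := by linarith
  exact_mod_cast this

/-- **Mann's theorem in every dimension** -/
theorem foreign_count {k h : ℕ} {C : Fin k → (Fin m → Fin n) → Fin n}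
    (hV : IsVariationalSet m n k C) (hm : 2 ≤ m) (hmk : m ≤ k) (hnh : n = 2 * h) (hh : Odd h)
    (i : Fin k) (A : Fin m → Finset (Fin n)) (S : Finset (Fin n)) (hA : ∀ j, (A j).card = h)
    (hS : S.card = h) : n + 2 ≤ 4 * (foreign A S (C i)).card := by
  classical
  obtain ⟨i', hii⟩ : ∃ i' : Fin k, i ≠ i' := by
    by_cases h0 : i = ⟨0, by omega⟩
    · exact ⟨⟨1, by omega⟩, by rw [h0]; simp⟩
    · exact ⟨⟨0, by omega⟩, h0⟩
  have h1 : n * 2 ^ (m - 2) ≤ (viol A S (C i)).card := by
    calc n * 2 ^ (m - 2) = ∑ _s : Fin n, 2 ^ (m - 2) := by simp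
      _ ≤ ∑ s : Fin n, ((viol A S (C i)).filter (fun x => C i' x = s)).card :=
          Finset.sum_le_sum (fun s _ => viol_count hV hm hmk hnh hh hii A S hA hS s)
      _ = (viol A S (C i)).card :=
          (Finset.card_eq_sum_card_fiberwise (fun x _ => Finset.mem_univ (C i' x))).symm
  rw [card_viol hV hnh hh i A S hA hS] at h1
  obtain ⟨r, rfl⟩ : ∃ r, m = r + 2 := ⟨m - 2, by omega⟩
  have h2 : r + 2 - 2 = r := by omega
  rw [h2, pow_add] at h1
  have h3 : n ≤ 4 * (foreign A S (C i)).card := by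
    have : 0 < 2 ^ r := by positivity
    nlinarith
  obtain ⟨q, hq⟩ := hh
  omega

end Pool.Agent.L7h11.PC
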