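import Pool.Agent.L7h11.PC.Dist

/-!
# Products of half-colourings of several members
-/

set_option autoImplicit false

open Finset Function

namespace Pool.Agent.L7h11.PC

open Pool.Agent.H430R2.PermCubes

variable {m n : ℕ}

/-- the product of the signs of the symbols of the cubes in `T` -/
def fs {k : ℕ} (T : Finset (Fin k)) (S : Fin k → Finset (Fin n))
    (C : Fin k → (Fin m → Fin n) → Fin n) (x : Fin m → Fin n) : ℤ := ∏ i ∈ T, ep (S i) (C i x)

theorem fs_sq {k : ℕ} (T : Finset (Fin k)) (S : Fin k → Finset (Fin n))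
    (C : Fin k → (Fin m → Fin n) → Fin n) (x : Fin m → Fin n) :
    fs T S C x = 1 ∨ fs T S C x = -1 := by
  classical
  unfold fs
  refine Finset.prod_induction _ (fun z : ℤ => z = 1 ∨ z = -1) ?_ (Or.inl rfl)
    (fun j _ => ep_sq _ _)
  rintro a b (rfl | rfl) (rfl | rfl) <;> simp

/-- orthogonality of the product to the functions of another cube -/
theorem orthT {k : ℕ} {C : Fin k → (Fin m → Fin n) → Fin n} (hV : IsVariationalSet m n k C)
    (hmk : m ≤ k) (hn : 0 < n) {T : Finset (Fin k)} (hT : T.Nonempty) (hTm : T.card < m)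
    (S : Fin k → Finset (Fin n)) (hS : ∀ i, 2 * (S i).card = n) {i' : Fin k} (hi' : i' ∉ T)
    (ψ : Fin n → ℤ) : ∑ x, fs T S C x * ψ (C i' x) = 0 := by
  classical
  obtain ⟨U, hTU, -, hU⟩ := Finset.exists_subsuperset_card_eq (s := insert i' T)
    (t := (univ : Finset (Fin k))) (n := m) (Finset.subset_univ _)
    (by rw [Finset.card_insert_of_notMem hi']; omega) (by simpa using hmk)
  let eq : Fin m ≃ U := (U.equivFinOfCardEq hU).symm
  let e : Fin m → Fin k := fun j => (eq j).1
  have he : Injective e := fun a b hab => eq.injective (Subtype.ext hab)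
  have hsurj : ∀ u ∈ U, ∃ j, e j = u := by
    intro u hu
    exact ⟨eq.symm ⟨u, hu⟩, by simp [e]⟩
  obtain ⟨j', hj'⟩ := hsurj i' (hTU (Finset.mem_insert_self _ _))
  obtain ⟨i0, hi0⟩ := hT
  obtain ⟨j0, hj0⟩ := hsurj i0 (hTU (Finset.mem_insert_of_mem hi0))
  have hjj : j' ≠ j0 := by
    intro h
    rw [h, hj0] at hj'
    exact hi' (hj' ▸ hi0)
  let J : Finset (Fin m) := univ.filter (fun j => e j ∈ T)
  have hJ : J.image e = T := by
    ext u
    simp only [J, Finset.mem_image, Finset.mem_filter, Finset.mem_univ, true_and]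
    constructor
    · rintro ⟨j, hj, rfl⟩
      exact hj
    · intro hu
      obtain ⟨j, hj⟩ := hsurj u (hTU (Finset.mem_insert_of_mem hu))
      exact ⟨j, by rwa [hj], hj⟩
  have hj0J : j0 ∈ J := by simp [J, hj0, hi0]
  have hf : ∀ x, fs T S C x = ∏ j ∈ J, ep (S (e j)) (C (e j) x) := by
    intro x
    unfold fs
    conv_lhs => rw [← hJ]
    rw [Finset.prod_image (fun a _ b _ hab => he hab)]
  have hb := hV.2 e he
  have h2 := hb.sum_comp (fun y : Fin m → Fin n => (∏ j ∈ J, ep (S (e j)) (y j)) * ψ (y j'))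
  have h3 : ∑ x, fs T S C x * ψ (C i' x) =
      ∑ x : Fin m → Fin n, (∏ j ∈ J, ep (S (e j)) (C (e j) x)) * ψ (C (e j') x) := by
    apply Finset.sum_congr rfl
    intro x _
    rw [hf, hj']
  rw [h3, h2]
  apply sum_zero_of_line hn _ j0
  intro x
  have h4 : ∀ t, (∏ j ∈ J, ep (S (e j)) (update x j0 t j)) * ψ (update x j0 t j') =
      ep (S (e j0)) t * ((∏ j ∈ J.erase j0, ep (S (e j)) (x j)) * ψ (x j')) := by
    intro t
    rw [← Finset.mul_prod_erase _ _ hj0J, update_self, update_of_ne hjj, mul_assoc]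
    congr 2
    apply Finset.prod_congr rfl
    intro j hj
    rw [update_of_ne (Finset.mem_erase.1 hj).1]
  simp only [h4]
  rw [← Finset.sum_mul, sum_ep (hS _), zero_mul]

/-- **the cells in which the parities differ** -/
theorem viol_countT {k h : ℕ} {C : Fin k → (Fin m → Fin n) → Fin n} (hV : IsVariationalSet m n k C)
    (hm : 2 ≤ m) (hmk : m ≤ k) (hnh : n = 2 * h) (hh : Odd h) {T : Finset (Fin k)}
    (hT : T.Nonempty) (hTm : T.card < m) (A : Fin m → Finset (Fin n))
    (S : Fin k → Finset (Fin n)) (hA : ∀ j, 2 * (A j).card = n) (hS : ∀ i, 2 * (S i).card = n)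
    {i' : Fin k} (hi' : i' ∉ T) (s : Fin n) :
    2 ^ (m - 2) ≤ (univ.filter (fun x : Fin m → Fin n => us A x ≠ fs T S C x ∧ C i' x = s)).card := by
  classical
  have hh0 : 0 < h := hh.pos
  have hn : 0 < n := by omega
  let ψ : Fin n → ℤ := fun t => n * (if t = s then 1 else 0) - 1
  have hψ : ∑ t, ψ t = 0 := by
    simp [ψ, Finset.sum_sub_distrib]
  have e1 : ∑ x, us A x * ψ (C i' x) = 2 ^ m *
      ∑ x ∈ univ.filter (fun x : Fin m → Fin n => ∀ j, x j ∈ A j), ψ (C i' x) :=
    box' hn A _ (fun j x => line_symbol (hV.1 i') ψ hψ j x)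
  have e2 : ∑ x, fs T S C x * ψ (C i' x) = 0 := orthT hV hmk hn hT hTm S hS hi' ψ
  have e3 : ∑ x, us A x = 0 := sum_us (by omega) hn A hA
  have e4 : ∑ x, fs T S C x = 0 := by
    have := orthT hV hmk hn hT hTm S hS hi' (fun _ => 1)
    simpa using this
  set V := univ.filter (fun x : Fin m → Fin n => us A x ≠ fs T S C x) with hVdef
  have hd : ∀ x, us A x - fs T S C x = if x ∈ V then 2 * us A x else 0 := by
    intro x
    simp only [hVdef, Finset.mem_filter, Finset.mem_univ, true_and]
    rcases us_sq A x with h | h <;> rcases fs_sq T S C x with h' | h' <;> rw [h, h'] <;> norm_num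
  have e5 : ∑ x ∈ V, us A x = 0 := by
    have : ∑ x, (us A x - fs T S C x) = 2 * ∑ x ∈ V, us A x := by
      simp only [hd]
      rw [Finset.sum_ite_mem, Finset.univ_inter, Finset.mul_sum]
    rw [Finset.sum_sub_distrib, e3, e4] at this
    linarith
  have e6 : ∑ x, us A x * ψ (C i' x) = 2 * n * ∑ x ∈ V.filter (fun x => C i' x = s), us A x := by
    have h1 : ∑ x, us A x * ψ (C i' x) = ∑ x, (us A x - fs T S C x) * ψ (C i' x) := by
      simp only [sub_mul, Finset.sum_sub_distrib, e2, sub_zero]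
    have h2 : ∀ x, (us A x - fs T S C x) * ψ (C i' x) =
        if x ∈ V then 2 * us A x * ψ (C i' x) else 0 := by
      intro x
      rw [hd]
      split_ifs <;> simp
    rw [h1]
    simp only [h2]
    rw [Finset.sum_ite_mem, Finset.univ_inter]
    have h3 : ∀ x, 2 * us A x * ψ (C i' x) =
        2 * n * (if C i' x = s then us A x else 0) - 2 * us A x := by
      intro x
      simp only [ψ]
      split_ifs <;> ring
    simp only [h3, Finset.sum_sub_distrib, ← Finset.mul_sum, e5, mul_zero, sub_zero]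
    congr 1
    exact (Finset.sum_filter _ _).symm
  set B := univ.filter (fun x : Fin m → Fin n => ∀ j, x j ∈ A j) with hB
  have hBc : B.card = h ^ m := card_box A (fun j => by have := hA j; omega)
  set N := (B.filter (fun x => C i' x = s)).card with hN
  have e7 : ∑ x ∈ B, ψ (C i' x) = n * N - (h : ℤ) ^ m := by
    simp only [ψ, Finset.sum_sub_distrib, ← Finset.mul_sum, Finset.sum_const, nsmul_eq_mul, mul_one,
      hBc]
    rw [Finset.sum_boole]
    push_cast
    rfl
  set W := ∑ x ∈ V.filter (fun x => C i' x = s), us A x with hW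
  have e8 : (2 : ℤ) ^ m * (n * N - (h : ℤ) ^ m) = 2 * n * W := by
    rw [← e7, ← e1, e6]
  obtain ⟨r, rfl⟩ : ∃ r, m = r + 2 := ⟨m - 2, by omega⟩
  have e9 : (2 : ℤ) ^ r * (2 * N - (h : ℤ) ^ (r + 1)) = W := by
    have hn' : (n : ℤ) = 2 * h := by exact_mod_cast hnh
    rw [hn'] at e8
    have h4 : (4 * h : ℤ) * ((2 : ℤ) ^ r * (2 * N - (h : ℤ) ^ (r + 1))) = 4 * h * W := by
      have : (2 : ℤ) ^ (r + 2) * (2 * h * N - (h : ℤ) ^ (r + 2)) = 2 * (2 * h) * W := e8
      rw [pow_add, pow_add (h : ℤ) r 2] at this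
      rw [pow_add]
      linear_combination this
    have h5 : (4 * h : ℤ) ≠ 0 := by positivity
    exact mul_left_cancel₀ h5 h4
  have e10 : (2 : ℤ) ^ r ≤ |W| := by
    rw [← e9, abs_mul, abs_of_nonneg (by positivity : (0 : ℤ) ≤ 2 ^ r)]
    have hodd : Odd (2 * (N : ℤ) - (h : ℤ) ^ (r + 1)) := by
      have h1 : Odd ((h : ℤ) ^ (r + 1)) := by
        have : Odd (h : ℤ) := by exact_mod_cast hh
        exact this.pow
      exact (even_two_mul _).sub_odd h1
    have h2 : 1 ≤ |2 * (N : ℤ) - (h : ℤ) ^ (r + 1)| := by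
      have : 2 * (N : ℤ) - (h : ℤ) ^ (r + 1) ≠ 0 := by
        intro h0
        rw [h0] at hodd
        exact absurd hodd (by decide)
      exact Int.one_le_abs this
    have h3 : (0 : ℤ) < 2 ^ r := by positivity
    nlinarith
  have e11 : |W| ≤ ((V.filter (fun x => C i' x = s)).card : ℤ) := by
    refine (Finset.abs_sum_le_sum_abs _ _).trans ?_
    have : ∀ x ∈ V.filter (fun x => C i' x = s), |us A x| = 1 := by
      intro x _
      rcases us_sq A x with h | h <;> rw [h] <;> simp
    rw [Finset.sum_congr rfl this]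
    simp
  have e12 : (2 : ℤ) ^ r ≤ ((V.filter (fun x => C i' x = s)).card : ℤ) := e10.trans e11
  have e13 : r + 2 - 2 = r := by omega
  have e14 : V.filter (fun x => C i' x = s) =
      univ.filter (fun x : Fin (r + 2) → Fin n => us A x ≠ fs T S C x ∧ C i' x = s) := by
    rw [hVdef, Finset.filter_filter]
  rw [e13, ← e14]
  exact_mod_cast e12

theorem us_eq (A : Fin m → Finset (Fin n)) (x : Fin m → Fin n) :
    us A x = (-1) ^ (univ.filter (fun j => x j ∉ A j)).card := by
  classical
  unfold us ep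
  have : ∀ j, (if x j ∈ A j then (1 : ℤ) else -1) = if x j ∉ A j then -1 else 1 := by
    intro j
    by_cases h : x j ∈ A j <;> simp [h]
  simp only [this]
  rw [Finset.prod_ite]
  simp

theorem fs_eq {k : ℕ} (T : Finset (Fin k)) (S : Fin k → Finset (Fin n))
    (C : Fin k → (Fin m → Fin n) → Fin n) (x : Fin m → Fin n) :
    fs T S C x = (-1) ^ (T.filter (fun i => C i x ∉ S i)).card := by
  classical
  unfold fs ep
  have : ∀ i, (if C i x ∈ S i then (1 : ℤ) else -1) = if C i x ∉ S i then -1 else 1 := by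
    intro i
    by_cases h : C i x ∈ S i <;> simp [h]
  simp only [this]
  rw [Finset.prod_ite]
  simp

/-- the statement with parities -/
theorem parity_count {k h : ℕ} {C : Fin k → (Fin m → Fin n) → Fin n}
    (hV : IsVariationalSet m n k C)
    (hm : 2 ≤ m) (hmk : m ≤ k) (hnh : n = 2 * h) (hh : Odd h) {T : Finset (Fin k)}
    (hT : T.Nonempty) (hTm : T.card < m) (A : Fin m → Finset (Fin n))
    (S : Fin k → Finset (Fin n)) (hA : ∀ j, 2 * (A j).card = n) (hS : ∀ i, 2 * (S i).card = n)
    {i' : Fin k} (hi' : i' ∉ T) (s : Fin n) :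
    2 ^ (m - 2) ≤ (univ.filter (fun x : Fin m → Fin n => C i' x = s ∧
      Odd ((T.filter (fun i => C i x ∈ S i)).card + (univ.filter (fun j => x j ∈ A j)).card))).card := by
  classical
  have h1 := viol_countT hV hm hmk hnh hh hT hTm (fun j => (A j)ᶜ) (fun i => (S i)ᶜ)
    (fun j => by rw [Finset.card_compl, Fintype.card_fin]; have := hA j; omega)
    (fun i => by rw [Finset.card_compl, Fintype.card_fin]; have := hS i; omega) hi' s
  refine h1.trans (Finset.card_le_card ?_)
  intro x hx
  simp only [Finset.mem_filter, Finset.mem_univ, true_and] at hx ⊢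
  refine ⟨hx.2, ?_⟩
  have h2 := hx.1
  rw [us_eq, fs_eq] at h2
  simp only [Finset.mem_compl, not_not] at h2
  by_contra hc
  rw [Nat.not_odd_iff_even, Nat.even_add] at hc
  apply h2
  rcases Nat.even_or_odd (univ.filter (fun j => x j ∈ A j)).card with h3 | h3
  · rw [h3.neg_one_pow, (hc.2 h3).neg_one_pow]
  · have h4 : Odd (T.filter (fun i => C i x ∈ S i)).card := by
      rw [← Nat.not_even_iff_odd]
      intro h5
      exact (Nat.not_even_iff_odd.2 h3) (hc.1 h5)
    rw [h3.neg_one_pow, h4.neg_one_pow]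

end Pool.Agent.L7h11.PC
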